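import Mathlib
import Pool.Agent.GT63.Cubical

/-!
# The Poincaré–Miranda theorem on cubes in Euclidean space
-/

set_option autoImplicit false

open Filter Topology Set

namespace Pool.Agent.Expand

variable {n : ℕ}

/-- A form of the Poincaré–Miranda theorem on the cube of centre `a` and half-side `s`. -/
theorem poincare_miranda (a : EuclideanSpace ℝ (Fin n)) (s : ℝ) (hs : 0 < s)
    (F : EuclideanSpace ℝ (Fin n) → Fin n → ℝ)
    (hF : ContinuousOn F {x | ∀ i, |x i - a i| ≤ s})
    (hneg : ∀ x, (∀ i, |x i - a i| ≤ s) → ∀ i, x i = a i - s → F x i < 0)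
    (hpos : ∀ x, (∀ i, |x i - a i| ≤ s) → ∀ i, x i = a i + s → 0 < F x i) :
    ∃ x : EuclideanSpace ℝ (Fin n), (∀ i, |x i - a i| ≤ s) ∧ F x = 0 := by
  classical
  set ψ : (Fin n → unitInterval) → EuclideanSpace ℝ (Fin n) := fun t =>
    WithLp.toLp 2 (fun i => a i + s * (2 * (t i : ℝ) - 1)) with hψ
  have hψi : ∀ t i, ψ t i = a i + s * (2 * (t i : ℝ) - 1) := fun t i => rfl
  have hψc : Continuous ψ := by
    apply (PiLp.continuous_toLp 2 _).comp
    fun_prop
  have hψm : ∀ t, ∀ i, |ψ t i - a i| ≤ s := by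
    intro t i
    rw [hψi]
    have h0 := (t i).2.1
    have h1 := (t i).2.2
    rw [abs_le]
    constructor <;> nlinarith
  have hFc : Continuous (fun t => F (ψ t)) := by
    rw [← continuousOn_univ]
    exact hF.comp hψc.continuousOn (fun t _ => hψm t)
  have hFi : ∀ i, Continuous (fun t => F (ψ t) i) := fun i => (continuous_apply i).comp hFc
  obtain ⟨t, ht⟩ := GT63.Cubical.partitions_meet
    (fun i => {t : Fin n → unitInterval | F (ψ t) i < 0}) (fun i => {t | 0 < F (ψ t) i})
    (fun i => isOpen_lt (hFi i) continuous_const) (fun i => isOpen_lt continuous_const (hFi i))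
    (fun i => by
      rw [Set.disjoint_left]
      intro t h1 h2
      simp only [Set.mem_setOf_eq] at h1 h2
      linarith)
    (fun i t h => by
      apply hneg _ (hψm t)
      rw [hψi, h]
      simp
      ring)
    (fun i t h => by
      apply hpos _ (hψm t)
      rw [hψi, h]
      simp
      ring)
  refine ⟨ψ t, hψm t, ?_⟩
  ext i
  have h1 := (ht i).1
  have h2 := (ht i).2
  simp only [Set.mem_setOf_eq, not_lt] at h1 h2
  exact le_antisymm h2 h1

end Pool.Agent.Expand
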