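import Mathlib

/-!
# Expanding maps on the cube: definitions
-/

set_option autoImplicit false

open Topology

namespace Pool.Agent.Expand

/-- The cube `[-1,1]^n` in Euclidean `n`-space. -/
def cube (n : ℕ) : Set (EuclideanSpace ℝ (Fin n)) := {x | ∀ i, |x i| ≤ 1}

/-- `f` is expanding on `X`: it is continuous on `X`, and every `x ∈ X` has a neighbourhood `U`
in `X` with `dist y z ≤ dist (f y) (f z)` for all `y, z ∈ U`. -/
def IsExpandingOn {α β : Type*} [PseudoMetricSpace α] [PseudoMetricSpace β]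
    (f : α → β) (X : Set α) : Prop :=
  ContinuousOn f X ∧
    ∀ x ∈ X, ∃ U ∈ 𝓝[X] x, ∀ y ∈ U, ∀ z ∈ U, dist y z ≤ dist (f y) (f z)

end Pool.Agent.Expand
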