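import Mathlib
import Pool.Agent.Expand.PM

/-!
# Invariance of domain for distance non-decreasing maps
-/

set_option autoImplicit false

open Filter Topology Set Metric MeasureTheory

namespace Pool.Agent.Expand

variable {n : ℕ}

theorem abs_coord_le_norm (x : EuclideanSpace ℝ (Fin n)) (i : Fin n) : |x i| ≤ ‖x‖ := by
  have := PiLp.norm_apply_le (p := 2) x i
  simpa using this

theorem abs_coord_le_dist (x y : EuclideanSpace ℝ (Fin n)) (i : Fin n) :
    |x i - y i| ≤ dist x y := by
  rw [dist_eq_norm]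
  exact abs_coord_le_norm (x - y) i

theorem norm_sq_le_of_coord (x : EuclideanSpace ℝ (Fin n)) (s : ℝ)
    (h : ∀ i, |x i| ≤ s) : ‖x‖ ^ 2 ≤ n * s ^ 2 := by
  rw [EuclideanSpace.norm_sq_eq]
  calc ∑ i, ‖x i‖ ^ 2 ≤ ∑ _i : Fin n, s ^ 2 := by
        apply Finset.sum_le_sum
        intro i _
        have := h i
        rw [Real.norm_eq_abs]
        exact pow_le_pow_left₀ (abs_nonneg _) this 2
    _ = n * s ^ 2 := by simp

theorem le_norm_sq_of_coord (x : EuclideanSpace ℝ (Fin n)) (s : ℝ) (hs : 0 ≤ s)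
    (h : ∀ i, s ≤ |x i|) : n * s ^ 2 ≤ ‖x‖ ^ 2 := by
  rw [EuclideanSpace.norm_sq_eq]
  calc n * s ^ 2 = ∑ _i : Fin n, s ^ 2 := by simp
    _ ≤ ∑ i, ‖x i‖ ^ 2 := by
        apply Finset.sum_le_sum
        intro i _
        have := h i
        rw [Real.norm_eq_abs]
        exact pow_le_pow_left₀ hs this 2

/-- the image of a sphere under a Lipschitz map has dense complement -/
theorem exists_near_notMem_image_sphere (G : EuclideanSpace ℝ (Fin n) → EuclideanSpace ℝ (Fin n))
    (C : NNReal) (hG : LipschitzWith C G) (y z : EuclideanSpace ℝ (Fin n)) {ε η : ℝ}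
    (hε : 0 < ε) (hη : 0 < η) :
    ∃ z', dist z' z < η ∧ ∀ w, dist w y = ε → G w ≠ z' := by
  have h1 : μH[(Module.finrank ℝ (EuclideanSpace ℝ (Fin n)) : ℝ)] (sphere y ε) = 0 :=
    Measure.addHaar_sphere_of_ne_zero _ y hε.ne'
  have h2 : μH[(Module.finrank ℝ (EuclideanSpace ℝ (Fin n)) : ℝ)] (G '' sphere y ε) = 0 := by
    have := hG.hausdorffMeasure_image_le
      (d := (Module.finrank ℝ (EuclideanSpace ℝ (Fin n)) : ℝ)) (by positivity) (sphere y ε)
    rw [h1, mul_zero] at this
    exact le_antisymm this (by simp)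
  have h3 : 0 < μH[(Module.finrank ℝ (EuclideanSpace ℝ (Fin n)) : ℝ)] (ball z η) :=
    Metric.measure_ball_pos _ z hη
  by_contra hcon
  push Not at hcon
  have h4 : ball z η ⊆ G '' sphere y ε := by
    intro z' hz'
    obtain ⟨w, hw, hw'⟩ := hcon z' hz'
    exact ⟨w, hw, hw'⟩
  have h5 := measure_mono (μ := μH[(Module.finrank ℝ (EuclideanSpace ℝ (Fin n)) : ℝ)]) h4
  rw [h2] at h5
  exact absurd (lt_of_lt_of_le h3 h5) (lt_irrefl _)

/-- Invariance of domain for maps which do not decrease distances. -/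
theorem mem_interior_image {f : EuclideanSpace ℝ (Fin n) → EuclideanSpace ℝ (Fin n)}
    {z : EuclideanSpace ℝ (Fin n)} {ρ : ℝ} (hρ : 0 < ρ)
    (hf : ContinuousOn f (closedBall z ρ))
    (hexp : ∀ y ∈ closedBall z ρ, ∀ w ∈ closedBall z ρ, dist y w ≤ dist (f y) (f w)) :
    f z ∈ interior (f '' closedBall z ρ) := by
  set B := closedBall z ρ with hB
  set K := f '' B with hK
  have hzB : z ∈ B := mem_closedBall_self hρ.le
  have hKc : IsCompact K := (isCompact_closedBall z ρ).image_of_continuousOn hf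
  set g := Function.invFunOn f B with hg
  have hg1 : ∀ y ∈ K, g y ∈ B := fun y hy => Function.invFunOn_mem hy
  have hg2 : ∀ y ∈ K, f (g y) = y := fun y hy => Function.invFunOn_eq hy
  have hinj : ∀ x ∈ B, ∀ x' ∈ B, f x = f x' → x = x' := by
    intro x hx x' hx' h
    have := hexp x hx x' hx'
    rw [h, dist_self] at this
    exact dist_le_zero.mp this
  have hg3 : ∀ x ∈ B, g (f x) = x := fun x hx =>
    hinj _ (hg1 _ ⟨x, hx, rfl⟩) _ hx (hg2 _ ⟨x, hx, rfl⟩)
  have hgL : LipschitzOnWith 1 g K := by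
    apply LipschitzOnWith.of_dist_le_mul
    intro y hy w hw
    have := hexp _ (hg1 y hy) _ (hg1 w hw)
    rw [hg2 y hy, hg2 w hw] at this
    simpa using this
  obtain ⟨G, hGL, hGg⟩ := hgL.extend_finite_dimension
  have hGf : ∀ x ∈ B, G (f x) = x := by
    intro x hx
    rw [← hGg ⟨x, hx, rfl⟩]
    exact hg3 x hx
  by_contra hint
  set s : ℝ := ρ / (n + 1) with hs
  have hspos : 0 < s := by positivity
  have hcube : ∀ x : EuclideanSpace ℝ (Fin n), (∀ i, |x i - z i| ≤ s) → x ∈ B := by
    intro x hx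
    have h1 := norm_sq_le_of_coord (x - z) s hx
    rw [hB, mem_closedBall, dist_eq_norm]
    have h2 : (n : ℝ) * s ^ 2 ≤ ρ ^ 2 := by
      have h3 : ρ = (n + 1) * s := by rw [hs]; field_simp
      rw [h3]
      have h4 : (0 : ℝ) ≤ n := Nat.cast_nonneg n
      have h5 : 0 ≤ s ^ 2 := sq_nonneg s
      nlinarith [mul_nonneg (mul_nonneg h4 h4) h5, mul_nonneg h4 h5]
    exact le_of_sq_le_sq (h1.trans h2) hρ.le
  set ε : ℝ := s / 4 with hε
  have hεpos : 0 < ε := by positivity
  rw [mem_interior_iff_mem_nhds, Metric.mem_nhds_iff] at hint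
  push Not at hint
  obtain ⟨y1, hy1, hy1K⟩ := Set.not_subset.mp (hint ε hεpos)
  rw [mem_ball] at hy1
  set Φ : EuclideanSpace ℝ (Fin n) → EuclideanSpace ℝ (Fin n) := fun y =>
    y1 + (max 1 (ε / dist y y1)) • (y - y1) with hΦ
  have hΦc : ContinuousOn Φ {y | y ≠ y1} := by
    have h1 : ContinuousOn (fun y => max 1 (ε / dist y y1)) {y | y ≠ y1} := by
      have h0 : ContinuousOn (fun y => ε / dist y y1) {y | y ≠ y1} := by
        apply ContinuousOn.div continuousOn_const
        · fun_prop
        · intro y hy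
          exact dist_ne_zero.mpr hy
      exact continuousOn_const.sup h0
    have h2 : ContinuousOn (fun y => y - y1) {y | y ≠ y1} := by fun_prop
    exact continuousOn_const.add (h1.smul h2)
  have hΦ1 : ∀ y, ε ≤ dist y y1 → Φ y = y := by
    intro y hy
    have h1 : ε / dist y y1 ≤ 1 := div_le_one_of_le₀ hy dist_nonneg
    simp only [hΦ]
    rw [max_eq_left h1]
    simp
  have hΦ2 : ∀ y, y ≠ y1 → dist y y1 < ε → dist (Φ y) y1 = ε := by
    intro y hy hy'
    have h0 : 0 < dist y y1 := dist_pos.mpr hy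
    have h1 : 1 ≤ ε / dist y y1 := by rw [one_le_div h0]; exact hy'.le
    simp only [hΦ]
    rw [max_eq_right h1, dist_eq_norm, add_sub_cancel_left, norm_smul, Real.norm_eq_abs,
      abs_of_nonneg (by positivity), ← dist_eq_norm]
    field_simp
  -- the far part of K
  set K2 := K ∩ {y | ε ≤ dist y y1} with hK2
  have hK2c : IsCompact K2 := hKc.inter_right (isClosed_le continuous_const (by fun_prop))
  have hzK2 : z ∉ G '' K2 := by
    rintro ⟨y, ⟨⟨x, hx, rfl⟩, hy⟩, h⟩
    rw [hGf x hx] at h
    rw [h] at hy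
    simp only [Set.mem_ofPred_eq] at hy
    rw [dist_comm] at hy
    linarith
  have hopen : IsOpen (G '' K2)ᶜ := (hK2c.image hGL.continuous).isClosed.isOpen_compl
  obtain ⟨μ, hμ, hμball⟩ := Metric.isOpen_iff.mp hopen z hzK2
  obtain ⟨z', hz', hz'S⟩ := exists_near_notMem_image_sphere G _ hGL y1 z hεpos
    (lt_min hμ hspos)
  have hfar : ∀ x ∈ B, s ≤ dist x z → ε ≤ dist (f x) y1 := by
    intro x hx hxz
    have h1 := hexp x hx z hzB
    have h2 := dist_triangle (f x) y1 (f z)
    rw [hε] at hy1 ⊢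
    linarith
  obtain ⟨x, hx, hx0⟩ := poincare_miranda z s hspos (fun x i => (G (Φ (f x)) - z') i)
    (by
      apply continuousOn_pi.mpr
      intro i
      have h1 : ContinuousOn (fun x => G (Φ (f x))) {x | ∀ i, |x i - z i| ≤ s} := by
        apply hGL.continuous.comp_continuousOn
        apply hΦc.comp (hf.mono hcube)
        intro x hx h
        exact hy1K ⟨x, hcube x hx, h⟩
      have h2 : Continuous (fun w : EuclideanSpace ℝ (Fin n) => (w - z') i) := by fun_prop
      exact h2.comp_continuousOn h1)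
    (by
      intro x hx i hxi
      have hxB := hcube x hx
      have h1 : s ≤ dist x z := by
        have := abs_coord_le_dist x z i
        rw [hxi] at this
        simp only [sub_sub_cancel_left, abs_neg] at this
        exact (le_abs_self s).trans this
      simp only
      rw [hΦ1 _ (hfar x hxB h1), hGf x hxB]
      have h2 := abs_coord_le_dist z' z i
      have h3 : dist z' z < s := lt_of_lt_of_le hz' (min_le_right _ _)
      have h4 := (abs_le.mp h2).1
      simp only [PiLp.sub_apply]
      linarith)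
    (by
      intro x hx i hxi
      have hxB := hcube x hx
      have h1 : s ≤ dist x z := by
        have := abs_coord_le_dist x z i
        rw [hxi] at this
        simp only [add_sub_cancel_left] at this
        exact (le_abs_self s).trans this
      simp only
      rw [hΦ1 _ (hfar x hxB h1), hGf x hxB]
      have h2 := abs_coord_le_dist z' z i
      have h3 : dist z' z < s := lt_of_lt_of_le hz' (min_le_right _ _)
      have h4 := (abs_le.mp h2).2
      simp only [PiLp.sub_apply]
      linarith)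
  have hxB := hcube x hx
  have hGx : G (Φ (f x)) = z' := by
    ext i
    have := congrFun hx0 i
    simp only [PiLp.sub_apply, Pi.zero_apply] at this
    linarith
  by_cases hc : ε ≤ dist (f x) y1
  · rw [hΦ1 _ hc] at hGx
    have h1 : G (f x) ∈ G '' K2 := ⟨f x, ⟨⟨x, hxB, rfl⟩, hc⟩, rfl⟩
    rw [hGx] at h1
    exact hμball (mem_ball.mpr (lt_of_lt_of_le hz' (min_le_left _ _))) h1
  · push Not at hc
    have hne : f x ≠ y1 := fun h => hy1K ⟨x, hxB, h⟩
    exact hz'S _ (hΦ2 _ hne hc) hGx

end Pool.Agent.Expand
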