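import Mathlib
import Pool.Agent.Expand.Open

/-!
# Lifts of radial segments under locally distance non-decreasing maps
-/

set_option autoImplicit false

open Filter Topology Set Metric

namespace Pool.Agent.Expand

variable {n : ℕ}

/-- The set of radial paths: `γ` is a `1`-Lipschitz path in `Q`, and `f (γ t) = t • u` for all
`t` between `a` and `b`. -/
def radSet (f : EuclideanSpace ℝ (Fin n) → EuclideanSpace ℝ (Fin n))
    (Q : Set (EuclideanSpace ℝ (Fin n))) (r : ℝ) :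
    Set (ℝ × ℝ × EuclideanSpace ℝ (Fin n) × (ℝ → EuclideanSpace ℝ (Fin n))) :=
  {p | p.1 ∈ Icc 0 r ∧ p.2.1 ∈ Icc 0 r ∧ ‖p.2.2.1‖ = 1 ∧ LipschitzWith 1 p.2.2.2 ∧
    (∀ t, p.2.2.2 t ∈ Q) ∧ ∀ l ∈ Icc (0 : ℝ) 1,
      f (p.2.2.2 (p.1 + l * (p.2.1 - p.1))) = (p.1 + l * (p.2.1 - p.1)) • p.2.2.1}

theorem isCompact_lipPaths {Q : Set (EuclideanSpace ℝ (Fin n))} (hQ : IsCompact Q) :
    IsCompact {γ : ℝ → EuclideanSpace ℝ (Fin n) | LipschitzWith 1 γ ∧ ∀ t, γ t ∈ Q} := by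
  have h1 : IsCompact (Set.univ.pi fun _ : ℝ => Q) := isCompact_univ_pi fun _ => hQ
  have h2 : IsClosed {γ : ℝ → EuclideanSpace ℝ (Fin n) | LipschitzWith 1 γ} := by
    have : {γ : ℝ → EuclideanSpace ℝ (Fin n) | LipschitzWith 1 γ} =
        ⋂ (s : ℝ) (t : ℝ), {γ | dist (γ s) (γ t) ≤ dist s t} := by
      ext γ
      simp only [Set.mem_ofPred_eq, Set.mem_iInter]
      rw [lipschitzWith_iff_dist_le_mul]
      simp
    rw [this]
    apply isClosed_iInter
    intro s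
    apply isClosed_iInter
    intro t
    exact isClosed_le (by fun_prop) continuous_const
  have h3 : {γ : ℝ → EuclideanSpace ℝ (Fin n) | LipschitzWith 1 γ ∧ ∀ t, γ t ∈ Q} =
      (Set.univ.pi fun _ : ℝ => Q) ∩ {γ | LipschitzWith 1 γ} := by
    ext γ
    simp only [Set.mem_ofPred_eq, Set.mem_inter_iff, Set.mem_univ_pi]
    exact and_comm
  rw [h3]
  exact h1.inter_right h2

theorem continuousOn_eval :
    ContinuousOn (fun p : ℝ × (ℝ → EuclideanSpace ℝ (Fin n)) => p.2 p.1)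
      (Set.univ ×ˢ {γ | LipschitzWith 1 γ}) := by
  apply continuousOn_prod_of_continuousOn_lipschitzOnWith _ 1
  · intro a _
    exact (continuous_apply a).continuousOn
  · intro γ hγ
    exact LipschitzWith.lipschitzOnWith hγ

theorem isCompact_radSet {f : EuclideanSpace ℝ (Fin n) → EuclideanSpace ℝ (Fin n)}
    {Q : Set (EuclideanSpace ℝ (Fin n))} (hQ : IsCompact Q) (hf : ContinuousOn f Q) (r : ℝ) :
    IsCompact (radSet f Q r) := by
  set C : Set (ℝ × ℝ × EuclideanSpace ℝ (Fin n) × (ℝ → EuclideanSpace ℝ (Fin n))) :=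
    Icc 0 r ×ˢ Icc 0 r ×ˢ sphere 0 1 ×ˢ
      {γ : ℝ → EuclideanSpace ℝ (Fin n) | LipschitzWith 1 γ ∧ ∀ t, γ t ∈ Q} with hC
  have hCc : IsCompact C := isCompact_Icc.prod (isCompact_Icc.prod
    ((isCompact_sphere 0 1).prod (isCompact_lipPaths hQ)))
  have heq : radSet f Q r = ⋂ l : Icc (0 : ℝ) 1, (C ∩ (fun p =>
      f (p.2.2.2 (p.1 + l.1 * (p.2.1 - p.1))) - (p.1 + l.1 * (p.2.1 - p.1)) • p.2.2.1) ⁻¹'
      {0}) := by
    ext p
    simp only [radSet, hC, Set.mem_ofPred_eq, Set.mem_iInter, Set.mem_inter_iff, Set.mem_prod,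
      mem_sphere_iff_norm, sub_zero, Set.mem_preimage, Set.mem_singleton_iff, Subtype.forall,
      sub_eq_zero]
    constructor
    · rintro ⟨h1, h2, h3, h4, h5, h6⟩ l hl
      exact ⟨⟨h1, h2, h3, h4, h5⟩, h6 l hl⟩
    · intro h
      obtain ⟨⟨h1, h2, h3, h4, h5⟩, -⟩ := h 0 ⟨le_rfl, zero_le_one⟩
      exact ⟨h1, h2, h3, h4, h5, fun l hl => (h l hl).2⟩
  have hcl : IsClosed (radSet f Q r) := by
    rw [heq]
    apply isClosed_iInter
    rintro ⟨l, hl⟩
    apply ContinuousOn.preimage_isClosed_of_isClosed _ hCc.isClosed isClosed_singleton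
    have h1 : ContinuousOn (fun p : ℝ × ℝ × EuclideanSpace ℝ (Fin n) ×
        (ℝ → EuclideanSpace ℝ (Fin n)) => p.2.2.2 (p.1 + l * (p.2.1 - p.1))) C := by
      have h2 : ContinuousOn (fun p : ℝ × ℝ × EuclideanSpace ℝ (Fin n) ×
        (ℝ → EuclideanSpace ℝ (Fin n)) => (p.1 + l * (p.2.1 - p.1), p.2.2.2)) C := by
        apply Continuous.continuousOn
        fun_prop
      exact continuousOn_eval.comp h2 (fun p hp => ⟨trivial, hp.2.2.2.1⟩)
    apply ContinuousOn.sub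
    · exact hf.comp h1 (fun p hp => hp.2.2.2.2 _)
    · apply Continuous.continuousOn
      fun_prop
  apply hCc.of_isClosed_subset hcl
  rintro p ⟨h1, h2, h3, h4, h5, h6⟩
  exact ⟨h1, h2, by simpa using h3, h4, h5⟩

/-- the points from which a radial path leads to `F` -/
def touch (f : EuclideanSpace ℝ (Fin n) → EuclideanSpace ℝ (Fin n))
    (Q : Set (EuclideanSpace ℝ (Fin n))) (r : ℝ) (F : Set (EuclideanSpace ℝ (Fin n))) :
    Set (EuclideanSpace ℝ (Fin n)) :=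
  (fun p : ℝ × ℝ × EuclideanSpace ℝ (Fin n) × (ℝ → EuclideanSpace ℝ (Fin n)) => p.2.2.2 p.1) ''
    (radSet f Q r ∩ (fun p => p.2.2.2 p.2.1) ⁻¹' F)

theorem isCompact_touch {f : EuclideanSpace ℝ (Fin n) → EuclideanSpace ℝ (Fin n)}
    {Q : Set (EuclideanSpace ℝ (Fin n))} (hQ : IsCompact Q) (hf : ContinuousOn f Q) (r : ℝ)
    {F : Set (EuclideanSpace ℝ (Fin n))} (hF : IsClosed F) : IsCompact (touch f Q r F) := by
  have hc := isCompact_radSet hQ hf r
  have h1 : ContinuousOn (fun p : ℝ × ℝ × EuclideanSpace ℝ (Fin n) ×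
      (ℝ → EuclideanSpace ℝ (Fin n)) => p.2.2.2 p.2.1) (radSet f Q r) := by
    have h2 : ContinuousOn (fun p : ℝ × ℝ × EuclideanSpace ℝ (Fin n) ×
      (ℝ → EuclideanSpace ℝ (Fin n)) => (p.2.1, p.2.2.2)) (radSet f Q r) := by
      apply Continuous.continuousOn
      fun_prop
    exact continuousOn_eval.comp h2 (fun p hp => ⟨trivial, hp.2.2.2.1⟩)
  have h3 : ContinuousOn (fun p : ℝ × ℝ × EuclideanSpace ℝ (Fin n) ×
      (ℝ → EuclideanSpace ℝ (Fin n)) => p.2.2.2 p.1) (radSet f Q r) := by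
    have h2 : ContinuousOn (fun p : ℝ × ℝ × EuclideanSpace ℝ (Fin n) ×
      (ℝ → EuclideanSpace ℝ (Fin n)) => (p.1, p.2.2.2)) (radSet f Q r) := by
      apply Continuous.continuousOn
      fun_prop
    exact continuousOn_eval.comp h2 (fun p hp => ⟨trivial, hp.2.2.2.1⟩)
  have h4 : IsCompact (radSet f Q r ∩ (fun p => p.2.2.2 p.2.1) ⁻¹' F) :=
    hc.of_isClosed_subset (h1.preimage_isClosed_of_isClosed hc.isClosed hF) inter_subset_left
  exact h4.image_of_continuousOn (h3.mono inter_subset_left)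

/-- a more convenient form of `radSet` -/
theorem radSet_apply {f : EuclideanSpace ℝ (Fin n) → EuclideanSpace ℝ (Fin n)}
    {Q : Set (EuclideanSpace ℝ (Fin n))} {r a b : ℝ} {u : EuclideanSpace ℝ (Fin n)}
    {γ : ℝ → EuclideanSpace ℝ (Fin n)} (h : (a, b, u, γ) ∈ radSet f Q r) :
    ∀ t ∈ uIcc a b, f (γ t) = t • u := by
  intro t ht
  obtain ⟨-, -, -, -, -, h6⟩ := h
  rw [← segment_eq_uIcc, segment_eq_image'] at ht
  obtain ⟨l, hl, rfl⟩ := ht
  have := h6 l hl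
  simpa using this

theorem radSet_mk {f : EuclideanSpace ℝ (Fin n) → EuclideanSpace ℝ (Fin n)}
    {Q : Set (EuclideanSpace ℝ (Fin n))} {r a b : ℝ} {u : EuclideanSpace ℝ (Fin n)}
    {γ : ℝ → EuclideanSpace ℝ (Fin n)} (ha : a ∈ Icc 0 r) (hb : b ∈ Icc 0 r) (hu : ‖u‖ = 1)
    (hγ : LipschitzWith 1 γ) (hQ : ∀ t, γ t ∈ Q) (h : ∀ t ∈ uIcc a b, f (γ t) = t • u) :
    (a, b, u, γ) ∈ radSet f Q r := by
  refine ⟨ha, hb, hu, hγ, hQ, ?_⟩
  intro l hl
  apply h
  rw [← segment_eq_uIcc, segment_eq_image']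
  exact ⟨l, hl, by simp⟩

theorem mem_touch {f : EuclideanSpace ℝ (Fin n) → EuclideanSpace ℝ (Fin n)}
    {Q : Set (EuclideanSpace ℝ (Fin n))} {r : ℝ} {F : Set (EuclideanSpace ℝ (Fin n))}
    {x : EuclideanSpace ℝ (Fin n)} : x ∈ touch f Q r F ↔
      ∃ a b u γ, (a, b, u, γ) ∈ radSet f Q r ∧ γ a = x ∧ γ b ∈ F := by
  constructor
  · rintro ⟨⟨a, b, u, γ⟩, ⟨h1, h2⟩, h3⟩
    exact ⟨a, b, u, γ, h1, h3, h2⟩
  · rintro ⟨a, b, u, γ, h1, h2, h3⟩
    exact ⟨⟨a, b, u, γ⟩, ⟨h1, h3⟩, h2⟩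

theorem radSet_start {f : EuclideanSpace ℝ (Fin n) → EuclideanSpace ℝ (Fin n)}
    {Q : Set (EuclideanSpace ℝ (Fin n))} {r a b : ℝ} {u : EuclideanSpace ℝ (Fin n)}
    {γ : ℝ → EuclideanSpace ℝ (Fin n)} (h : (a, b, u, γ) ∈ radSet f Q r)
    (hx : f (γ a) ≠ 0) : a = ‖f (γ a)‖ ∧ u = ‖f (γ a)‖⁻¹ • f (γ a) := by
  have h1 := radSet_apply h a left_mem_uIcc
  have h2 : ‖f (γ a)‖ = a := by
    rw [h1, norm_smul, h.2.2.1, mul_one, Real.norm_eq_abs, abs_of_nonneg h.1.1]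
  refine ⟨h2.symm, ?_⟩
  have h3 : a ≠ 0 := by
    intro h0
    exact hx (norm_eq_zero.mp (h2.trans h0))
  rw [h2, h1, smul_smul, inv_mul_cancel₀ h3, one_smul]

/-- uniqueness of lifts -/
theorem radSet_unique {f : EuclideanSpace ℝ (Fin n) → EuclideanSpace ℝ (Fin n)}
    {Q : Set (EuclideanSpace ℝ (Fin n))} {δ : ℝ} (hδ : 0 < δ)
    (hexp : ∀ y ∈ Q, ∀ z ∈ Q, dist y z < δ → dist y z ≤ dist (f y) (f z))
    {r a b b' : ℝ} {u : EuclideanSpace ℝ (Fin n)}
    {γ γ' : ℝ → EuclideanSpace ℝ (Fin n)} (h : (a, b, u, γ) ∈ radSet f Q r)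
    (h' : (a, b', u, γ') ∈ radSet f Q r) (ha : γ a = γ' a) {c : ℝ} (hc : c ∈ uIcc a b)
    (hc' : c ∈ uIcc a b') : γ c = γ' c := by
  have hsub : uIcc a c ⊆ uIcc a b := uIcc_subset_uIcc_left hc
  have hsub' : uIcc a c ⊆ uIcc a b' := uIcc_subset_uIcc_left hc'
  have hdc : Continuous (fun t => dist (γ t) (γ' t)) :=
    h.2.2.2.1.continuous.dist h'.2.2.2.1.continuous
  have hdich : ∀ t ∈ uIcc a c, dist (γ t) (γ' t) < δ → dist (γ t) (γ' t) = 0 := by
    intro t ht hlt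
    have h1 := hexp _ (h.2.2.2.2.1 t) _ (h'.2.2.2.2.1 t) hlt
    rw [radSet_apply h t (hsub ht), radSet_apply h' t (hsub' ht), dist_self] at h1
    exact le_antisymm h1 dist_nonneg
  by_contra hne
  have h0 : dist (γ a) (γ' a) = 0 := by rw [ha, dist_self]
  have h1 : δ ≤ dist (γ c) (γ' c) := by
    by_contra hlt
    push Not at hlt
    exact hne (dist_eq_zero.mp (hdich c right_mem_uIcc hlt))
  have h2 := intermediate_value_uIcc (f := fun t => dist (γ t) (γ' t)) (a := a) (b := c)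
    hdc.continuousOn
  have h3 : δ / 2 ∈ uIcc (dist (γ a) (γ' a)) (dist (γ c) (γ' c)) := by
    rw [h0]
    rw [uIcc_of_le (by linarith)]
    constructor <;> linarith
  obtain ⟨t, ht, ht'⟩ := h2 h3
  simp only at ht'
  have h4 := hdich t ht (by rw [ht']; linarith)
  rw [ht'] at h4
  linarith

/-- Two radial paths through the same point fit together. -/
theorem radSet_dist {f : EuclideanSpace ℝ (Fin n) → EuclideanSpace ℝ (Fin n)}
    {Q : Set (EuclideanSpace ℝ (Fin n))} {δ : ℝ} (hδ : 0 < δ)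
    (hexp : ∀ y ∈ Q, ∀ z ∈ Q, dist y z < δ → dist y z ≤ dist (f y) (f z))
    {r a b b' : ℝ} {u : EuclideanSpace ℝ (Fin n)}
    {γ γ' : ℝ → EuclideanSpace ℝ (Fin n)} (h : (a, b, u, γ) ∈ radSet f Q r)
    (h' : (a, b', u, γ') ∈ radSet f Q r) (ha : γ a = γ' a) :
    dist (γ b) (γ' b') ≤ |b - b'| := by
  have hL : ∀ s t, dist (γ s) (γ t) ≤ |s - t| := by
    intro s t
    have := h.2.2.2.1.dist_le_mul s t
    simpa [Real.dist_eq] using this
  have hL' : ∀ s t, dist (γ' s) (γ' t) ≤ |s - t| := by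
    intro s t
    have := h'.2.2.2.1.dist_le_mul s t
    simpa [Real.dist_eq] using this
  by_cases hb : b ∈ uIcc a b'
  · have := radSet_unique hδ hexp h h' ha right_mem_uIcc hb
    rw [this]
    exact hL' _ _
  by_cases hb' : b' ∈ uIcc a b
  · have := radSet_unique hδ hexp h h' ha hb' right_mem_uIcc
    rw [← this]
    exact hL _ _
  have h1 : dist (γ b) (γ' b') ≤ |b - a| + |a - b'| := by
    calc dist (γ b) (γ' b') ≤ dist (γ b) (γ a) + dist (γ a) (γ' b') := dist_triangle _ _ _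
      _ = dist (γ b) (γ a) + dist (γ' a) (γ' b') := by rw [ha]
      _ ≤ |b - a| + |a - b'| := add_le_add (hL _ _) (hL' _ _)
  have h2 : |b - a| + |a - b'| = |b - b'| := by
    rw [mem_uIcc] at hb hb'
    push Not at hb hb'
    rcases le_total a b with h3 | h3
    · rcases le_total a b' with h4 | h4
      · have h5 := hb.1 h3
        have h6 := hb'.1 h4
        exact absurd (h5.trans h6) (lt_irrefl _)
      · rw [abs_of_nonneg (by linarith), abs_of_nonneg (by linarith),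
          abs_of_nonneg (by linarith)]
        ring
    · rcases le_total a b' with h4 | h4
      · rw [abs_of_nonpos (by linarith), abs_of_nonpos (by linarith),
          abs_of_nonpos (by linarith)]
        ring
      · rcases le_total b b' with h5 | h5
        · have := hb'.2 h5
          exact absurd (lt_of_lt_of_le this h4) (lt_irrefl _)
        · have := hb.2 h5
          exact absurd (lt_of_lt_of_le this h3) (lt_irrefl _)
  rw [← h2]
  exact h1

end Pool.Agent.Expand
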