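import Mathlib
import Pool.Agent.Expand.Path

/-!
# Total variation, extension of radial paths, and the covering
-/

set_option autoImplicit false

open Filter Topology Set Metric

namespace Pool.Agent.Expand

variable {n : ℕ}

theorem lipschitz_glue {α : Type*} [PseudoMetricSpace α] {g h : ℝ → α} {b : ℝ}
    (hg : LipschitzWith 1 g) (hh : LipschitzWith 1 h) (hb : g b = h b) :
    LipschitzWith 1 (fun t => if t ≤ b then g t else h t) := by
  have key : ∀ s t : ℝ, s ≤ t → dist (if s ≤ b then g s else h s) (if t ≤ b then g t else h t) ≤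
      dist s t := by
    intro s t hst
    have hg' : ∀ s t, dist (g s) (g t) ≤ dist s t := fun s t => by
      simpa using hg.dist_le_mul s t
    have hh' : ∀ s t, dist (h s) (h t) ≤ dist s t := fun s t => by
      simpa using hh.dist_le_mul s t
    by_cases h1 : s ≤ b
    · by_cases h2 : t ≤ b
      · rw [if_pos h1, if_pos h2]
        exact hg' s t
      · rw [if_pos h1, if_neg h2]
        push Not at h2
        calc dist (g s) (h t) ≤ dist (g s) (g b) + dist (g b) (h t) := dist_triangle _ _ _
          _ = dist (g s) (g b) + dist (h b) (h t) := by rw [hb]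
          _ ≤ dist s b + dist b t := add_le_add (hg' _ _) (hh' _ _)
          _ = dist s t := by
            rw [Real.dist_eq, Real.dist_eq, Real.dist_eq, abs_of_nonpos (by linarith),
              abs_of_nonpos (by linarith), abs_of_nonpos (by linarith)]
            ring
    · have h2 : ¬ t ≤ b := fun h => h1 (hst.trans h)
      rw [if_neg h1, if_neg h2]
      exact hh' s t
  rw [lipschitzWith_iff_dist_le_mul]
  intro s t
  rw [NNReal.coe_one, one_mul]
  rcases le_total s t with hst | hst
  · exact key s t hst
  · rw [dist_comm, dist_comm s t]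
    exact key t s hst

/-- stopping one coordinate of a `1`-Lipschitz path at a time keeps the path `1`-Lipschitz -/
theorem lipschitz_stop {γ : ℝ → EuclideanSpace ℝ (Fin n)} (hγ : LipschitzWith 1 γ)
    (j : Fin n) (τ : ℝ) :
    LipschitzWith 1 (fun t => WithLp.toLp 2 (Function.update (γ t).ofLp j (γ (min t τ) j)) :
      ℝ → EuclideanSpace ℝ (Fin n)) := by
  set g := γ with hg
  set h : ℝ → EuclideanSpace ℝ (Fin n) := fun t =>
    WithLp.toLp 2 (Function.update (γ t).ofLp j (γ τ j)) with hh
  have hhL : LipschitzWith 1 h := by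
    rw [lipschitzWith_iff_dist_le_mul]
    intro s t
    refine le_trans ?_ (hγ.dist_le_mul s t)
    rw [EuclideanSpace.dist_eq, EuclideanSpace.dist_eq]
    apply Real.sqrt_le_sqrt
    apply Finset.sum_le_sum
    intro i _
    by_cases hij : i = j
    · subst hij
      simp only [hh, Function.update_self, dist_self]
      exact pow_le_pow_left₀ le_rfl dist_nonneg 2
    · simp only [hh, Function.update_of_ne hij]
      exact le_rfl
  have hb : g τ = h τ := by
    simp only [hh]
    rw [Function.update_eq_self]
  have := lipschitz_glue hγ hhL hb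
  have heq : (fun t => if t ≤ τ then g t else h t) =
      (fun t => WithLp.toLp 2 (Function.update (γ t).ofLp j (γ (min t τ) j))) := by
    funext t
    by_cases ht : t ≤ τ
    · rw [if_pos ht, min_eq_left ht, Function.update_eq_self]
    · push Not at ht
      rw [if_neg (not_le.mpr ht), min_eq_right ht.le]
  rw [← heq]
  exact this

/-- Total variation estimate. -/
theorem sum_sq_le_of_lipschitz {γ : ℝ → EuclideanSpace ℝ (Fin n)} (hγ : LipschitzWith 1 γ)
    {a b : ℝ} (hab : a ≤ b) (τ : Fin n → ℝ) (h1 : ∀ j, a ≤ τ j) (h2 : ∀ j, τ j ≤ b) :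
    ∑ j, (γ (τ j) j - γ a j) ^ 2 ≤ (b - a) ^ 2 := by
  classical
  have key : ∀ S : Finset (Fin n), LipschitzWith 1 (fun t => WithLp.toLp 2
      (fun j => if j ∈ S then γ (min t (τ j)) j else γ t j) : ℝ → EuclideanSpace ℝ (Fin n)) := by
    intro S
    induction S using Finset.induction_on with
    | empty => simpa using hγ
    | insert j S hj ih =>
      have := lipschitz_stop ih j (τ j)
      have heq : (fun t => WithLp.toLp 2
          (fun i => if i ∈ insert j S then γ (min t (τ i)) i else γ t i) :
            ℝ → EuclideanSpace ℝ (Fin n)) =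
          (fun t => WithLp.toLp 2 (Function.update
            (WithLp.toLp 2 (fun i => if i ∈ S then γ (min t (τ i)) i else γ t i) :
              EuclideanSpace ℝ (Fin n)).ofLp j
            ((WithLp.toLp 2 (fun i => if i ∈ S then γ (min (min t (τ j)) (τ i)) i else
              γ (min t (τ j)) i) : EuclideanSpace ℝ (Fin n)) j))) := by
        funext t
        congr 1
        funext i
        by_cases hij : i = j
        · subst hij
          simp [hj]
        · simp [hij, Finset.mem_insert]
      rw [heq]
      exact this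
  have h3 := (key Finset.univ).dist_le_mul b a
  simp only [Finset.mem_univ, if_true, NNReal.coe_one, one_mul] at h3
  have h4 : (dist (WithLp.toLp 2 (fun j => γ (min b (τ j)) j) : EuclideanSpace ℝ (Fin n))
      (WithLp.toLp 2 (fun j => γ (min a (τ j)) j))) ^ 2 = ∑ j, (γ (τ j) j - γ a j) ^ 2 := by
    rw [EuclideanSpace.dist_sq_eq]
    apply Finset.sum_congr rfl
    intro j _
    simp only
    rw [min_eq_right (h2 j), min_eq_left (h1 j), Real.dist_eq, sq_abs]
  rw [← h4, Real.dist_eq, abs_of_nonneg (by linarith)] at *
  exact pow_le_pow_left₀ dist_nonneg h3 2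

theorem sum_sq_le_of_lipschitz' {γ : ℝ → EuclideanSpace ℝ (Fin n)} (hγ : LipschitzWith 1 γ)
    {a b : ℝ} (hab : b ≤ a) (τ : Fin n → ℝ) (h1 : ∀ j, τ j ≤ a) (h2 : ∀ j, b ≤ τ j) :
    ∑ j, (γ (τ j) j - γ a j) ^ 2 ≤ (a - b) ^ 2 := by
  have h3 : LipschitzWith 1 (fun t => γ (-t)) := by
    rw [lipschitzWith_iff_dist_le_mul]
    intro s t
    refine (hγ.dist_le_mul (-s) (-t)).trans ?_
    rw [dist_neg_neg]
  have := sum_sq_le_of_lipschitz h3 (a := -a) (b := -b) (by linarith) (fun j => - τ j)
    (fun j => by linarith [h1 j]) (fun j => by linarith [h2 j])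
  simp only [neg_neg] at this
  calc _ ≤ _ := this
    _ = _ := by ring

end Pool.Agent.Expand
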