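import Mathlib
import Pool.Agent.Expand.TV

/-!
# The covering of the cube by touching sets
-/

set_option autoImplicit false

open Filter Topology Set Metric

namespace Pool.Agent.Expand

variable {n : ℕ}

/-- an interior endpoint of a radial path can be moved outwards -/
theorem radSet_extend {f : EuclideanSpace ℝ (Fin n) → EuclideanSpace ℝ (Fin n)}
    {Q : Set (EuclideanSpace ℝ (Fin n))} (hfc : ContinuousOn f Q) {δ : ℝ} (hδ : 0 < δ)
    (hexp : ∀ y ∈ Q, ∀ z ∈ Q, dist y z < δ → dist y z ≤ dist (f y) (f z))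
    {r : ℝ} (hr : ∀ x ∈ Q, ‖f x‖ ≤ r) {a b : ℝ} {u : EuclideanSpace ℝ (Fin n)}
    {γ : ℝ → EuclideanSpace ℝ (Fin n)} (h : (a, b, u, γ) ∈ radSet f Q r) (hab : a ≤ b)
    (hint : γ b ∈ interior Q) :
    ∃ b' γ', b < b' ∧ (a, b', u, γ') ∈ radSet f Q r ∧ γ' a = γ a := by
  rw [mem_interior_iff_mem_nhds, Metric.mem_nhds_iff] at hint
  obtain ⟨ρ0, hρ0, hball⟩ := hint
  set ρ : ℝ := min (ρ0 / 2) (δ / 3) with hρ
  have hρpos : 0 < ρ := lt_min (by linarith) (by linarith)
  set y := γ b with hy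
  have hsub : closedBall y ρ ⊆ Q := by
    refine subset_trans ?_ hball
    apply closedBall_subset_ball
    exact lt_of_le_of_lt (min_le_left _ _) (by linarith)
  have hexp' : ∀ p ∈ closedBall y ρ, ∀ q ∈ closedBall y ρ, dist p q ≤ dist (f p) (f q) := by
    intro p hp q hq
    apply hexp p (hsub hp) q (hsub hq)
    have h1 : dist p y ≤ δ / 3 := le_trans hp (min_le_right _ _)
    have h2 : dist q y ≤ δ / 3 := le_trans hq (min_le_right _ _)
    have h3 := dist_triangle_right p q y
    linarith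
  have hopen := mem_interior_image hρpos (hfc.mono hsub) hexp'
  have hfy : f y = b • u := radSet_apply h b right_mem_uIcc
  rw [mem_interior_iff_mem_nhds, Metric.mem_nhds_iff] at hopen
  obtain ⟨η, hη, hηball⟩ := hopen
  have hu : ‖u‖ = 1 := h.2.2.1
  have hinv : ∀ t, |t - b| < η → ∃ p ∈ closedBall y ρ, f p = t • u := by
    intro t ht
    have : t • u ∈ ball (f y) η := by
      rw [mem_ball, hfy, dist_eq_norm, ← sub_smul, norm_smul, hu, mul_one, Real.norm_eq_abs]
      exact ht
    exact hηball this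
  set g : ℝ → EuclideanSpace ℝ (Fin n) := fun t =>
    Function.invFunOn f (closedBall y ρ) (t • u) with hg
  have hg1 : ∀ t, |t - b| < η → g t ∈ closedBall y ρ := fun t ht =>
    Function.invFunOn_mem (hinv t ht)
  have hg2 : ∀ t, |t - b| < η → f (g t) = t • u := fun t ht =>
    Function.invFunOn_eq (hinv t ht)
  have hyB : y ∈ closedBall y ρ := mem_closedBall_self hρpos.le
  have hgb : g b = y := by
    have hb0 : |b - b| < η := by simpa using hη
    have h1 := hexp' _ (hg1 b hb0) _ hyB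
    rw [hg2 b hb0, hfy, dist_self] at h1
    exact dist_le_zero.mp h1
  set b' : ℝ := b + η / 2 with hb'
  set cl : ℝ → ℝ := fun t => max b (min t b') with hcl
  have hclm : ∀ t, |cl t - b| < η := by
    intro t
    have h1 : b ≤ cl t := le_max_left _ _
    have h2 : cl t ≤ b' := max_le (by linarith) (min_le_right _ _)
    rw [abs_of_nonneg (by linarith)]
    linarith
  have hclL : ∀ s t, |cl s - cl t| ≤ |s - t| := by
    intro s t
    have h1 : LipschitzWith 1 cl := (LipschitzWith.id.min_const b').const_max b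
    have h2 := h1.dist_le_mul s t
    simpa [Real.dist_eq] using h2
  set g' : ℝ → EuclideanSpace ℝ (Fin n) := fun t => g (cl t) with hg'
  have hg'L : LipschitzWith 1 g' := by
    rw [lipschitzWith_iff_dist_le_mul]
    intro s t
    rw [NNReal.coe_one, one_mul]
    have h1 := hexp' _ (hg1 _ (hclm s)) _ (hg1 _ (hclm t))
    rw [hg2 _ (hclm s), hg2 _ (hclm t)] at h1
    refine h1.trans ?_
    rw [dist_eq_norm, ← sub_smul, norm_smul, hu, mul_one, Real.norm_eq_abs, Real.dist_eq]
    exact hclL s t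
  have hg'b : g' b = y := by
    have : cl b = b := by
      simp only [hcl]
      rw [min_eq_left (by linarith), max_self]
    simp only [hg', this, hgb]
  have hfg' : ∀ t, b ≤ t → t ≤ b' → f (g' t) = t • u := by
    intro t h1 h2
    have : cl t = t := by
      simp only [hcl]
      rw [min_eq_left h2, max_eq_right h1]
    have h3 := hg2 _ (hclm t)
    simp only [hg']
    rw [h3, this]
  have hb'r : b' ≤ r := by
    have h1 := hfg' b' (by linarith) le_rfl
    have h2 := hr (g' b') (hsub (hg1 _ (hclm b')))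
    rw [h1, norm_smul, hu, mul_one, Real.norm_eq_abs] at h2
    exact (le_abs_self _).trans h2
  refine ⟨b', fun t => if t ≤ b then γ t else g' t, by linarith, ?_, ?_⟩
  · apply radSet_mk h.1 ⟨by linarith [h.2.1.1], hb'r⟩ hu
    · exact lipschitz_glue h.2.2.2.1 hg'L (by rw [hg'b])
    · intro t
      by_cases ht : t ≤ b
      · simp only [if_pos ht]
        exact h.2.2.2.2.1 t
      · simp only [if_neg ht]
        exact hsub (hg1 _ (hclm t))
    · intro t ht
      rw [uIcc_of_le (by linarith)] at ht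
      by_cases htb : t ≤ b
      · simp only [if_pos htb]
        apply radSet_apply h
        rw [uIcc_of_le hab]
        exact ⟨ht.1, htb⟩
      · simp only [if_neg htb]
        push Not at htb
        exact hfg' t htb.le ht.2
  · simp only [if_pos hab]

/-- from every point of the cube a radial path leads to the frontier -/
theorem exists_radSet_frontier {f : EuclideanSpace ℝ (Fin n) → EuclideanSpace ℝ (Fin n)}
    {Q : Set (EuclideanSpace ℝ (Fin n))} (hQ : IsCompact Q) (hfc : ContinuousOn f Q)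
    {δ : ℝ} (hδ : 0 < δ)
    (hexp : ∀ y ∈ Q, ∀ z ∈ Q, dist y z < δ → dist y z ≤ dist (f y) (f z))
    {r : ℝ} (hr : ∀ x ∈ Q, ‖f x‖ ≤ r) {x u : EuclideanSpace ℝ (Fin n)} (hx : x ∈ Q)
    {a : ℝ} (ha : 0 ≤ a) (hu : ‖u‖ = 1) (hfx : f x = a • u) :
    ∃ b γ, a ≤ b ∧ (a, b, u, γ) ∈ radSet f Q r ∧ γ a = x ∧ γ b ∉ interior Q := by
  set S : Set (ℝ × ℝ × EuclideanSpace ℝ (Fin n) × (ℝ → EuclideanSpace ℝ (Fin n))) :=
    radSet f Q r ∩ {p | p.1 = a ∧ p.2.2.1 = u ∧ p.2.2.2 a = x ∧ a ≤ p.2.1} with hS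
  have hclosed : IsClosed {p : ℝ × ℝ × EuclideanSpace ℝ (Fin n) ×
      (ℝ → EuclideanSpace ℝ (Fin n)) | p.1 = a ∧ p.2.2.1 = u ∧ p.2.2.2 a = x ∧ a ≤ p.2.1} := by
    have c1 : IsClosed {p : ℝ × ℝ × EuclideanSpace ℝ (Fin n) ×
      (ℝ → EuclideanSpace ℝ (Fin n)) | p.1 = a} := isClosed_eq (by fun_prop) continuous_const
    have c2 : IsClosed {p : ℝ × ℝ × EuclideanSpace ℝ (Fin n) ×
      (ℝ → EuclideanSpace ℝ (Fin n)) | p.2.2.1 = u} := isClosed_eq (by fun_prop) continuous_const
    have c3 : IsClosed {p : ℝ × ℝ × EuclideanSpace ℝ (Fin n) ×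
      (ℝ → EuclideanSpace ℝ (Fin n)) | p.2.2.2 a = x} := isClosed_eq (by fun_prop) continuous_const
    have c4 : IsClosed {p : ℝ × ℝ × EuclideanSpace ℝ (Fin n) ×
      (ℝ → EuclideanSpace ℝ (Fin n)) | a ≤ p.2.1} := isClosed_le continuous_const (by fun_prop)
    exact c1.inter (c2.inter (c3.inter c4))
  have hSc : IsCompact S := (isCompact_radSet hQ hfc r).inter_right hclosed
  have har : a ≤ r := by
    have := hr x hx
    rw [hfx, norm_smul, hu, mul_one, Real.norm_eq_abs, abs_of_nonneg ha] at this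
    exact this
  have hSne : S.Nonempty := by
    refine ⟨(a, a, u, fun _ => x), ?_, rfl, rfl, rfl, le_rfl⟩
    apply radSet_mk ⟨ha, har⟩ ⟨ha, har⟩ hu (LipschitzWith.const' x) (fun _ => hx)
    intro t ht
    rw [uIcc_self, Set.mem_singleton_iff] at ht
    rw [ht]
    exact hfx
  obtain ⟨⟨a0, b, u0, γ⟩, ⟨hp, ha0, hu0, hγ, hab⟩, hmax⟩ := hSc.exists_isMaxOn hSne
    (f := fun p => p.2.1) (by fun_prop)
  simp only at ha0 hu0 hγ hab
  subst ha0 hu0
  refine ⟨b, γ, hab, hp, hγ, ?_⟩
  intro hint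
  obtain ⟨b', γ', hb', hp', hγ'⟩ := radSet_extend hfc hδ hexp hr hp hab hint
  have := hmax (show (a0, b', u0, γ') ∈ S from ⟨hp', rfl, rfl, hγ'.trans hγ, by
    simp only
    linarith⟩)
  simp only [Set.mem_ofPred_eq] at this
  linarith

/-- If radial paths through `x` lead to points with `j`-th coordinate `v j`, for all `j`,
then `v` is at distance at most `r` from `x`. -/
theorem sum_sq_le_of_touch {f : EuclideanSpace ℝ (Fin n) → EuclideanSpace ℝ (Fin n)}
    {Q : Set (EuclideanSpace ℝ (Fin n))} {δ : ℝ} (hδ : 0 < δ)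
    (hexp : ∀ y ∈ Q, ∀ z ∈ Q, dist y z < δ → dist y z ≤ dist (f y) (f z))
    {r : ℝ} {x : EuclideanSpace ℝ (Fin n)} (hx : f x ≠ 0) (v : Fin n → ℝ)
    (hv : ∀ j, x ∈ touch f Q r {y | y j = v j}) :
    ∑ j, (v j - x j) ^ 2 ≤ r ^ 2 := by
  classical
  rcases isEmpty_or_nonempty (Fin n) with hn | hn
  · simp
    exact sq_nonneg r
  have h1 : ∀ j, ∃ b γ, (‖f x‖, b, ‖f x‖⁻¹ • f x, γ) ∈ radSet f Q r ∧ γ ‖f x‖ = x ∧
      γ b j = v j := by
    intro j
    obtain ⟨a, b, u, γ, h1, h2, h3⟩ := mem_touch.mp (hv j)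
    have h4 := radSet_start h1 (by rw [h2]; exact hx)
    rw [h2] at h4
    obtain ⟨h4, h5⟩ := h4
    refine ⟨b, γ, ?_, ?_, h3⟩
    · rw [← h5, ← h4]
      exact h1
    · rw [← h4]
      exact h2
  choose b γ hrad hγx hγb using h1
  set a := ‖f x‖ with ha
  set u := a⁻¹ • f x with hu
  have har : a ∈ Icc 0 r := (hrad (Classical.arbitrary _)).1
  -- outward part
  have hout : ∃ g : ℝ → EuclideanSpace ℝ (Fin n), LipschitzWith 1 g ∧ g a = x ∧
      ∀ j, a ≤ b j → g (b j) = γ j (b j) := by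
    by_cases hne : (Finset.univ.filter fun j => a ≤ b j).Nonempty
    · obtain ⟨k, hk, hkmax⟩ := Finset.exists_max_image _ b hne
      simp only [Finset.mem_filter, Finset.mem_univ, true_and] at hk hkmax
      refine ⟨γ k, (hrad k).2.2.2.1, hγx k, ?_⟩
      intro j hj
      apply radSet_unique hδ hexp (hrad k) (hrad j) ((hγx k).trans (hγx j).symm)
      · rw [uIcc_of_le hk]
        exact ⟨hj, hkmax j hj⟩
      · exact right_mem_uIcc
    · refine ⟨fun _ => x, LipschitzWith.const' x, rfl, ?_⟩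
      intro j hj
      exact absurd ⟨j, by simpa using hj⟩ hne
  have hin : ∃ g : ℝ → EuclideanSpace ℝ (Fin n), LipschitzWith 1 g ∧ g a = x ∧
      ∀ j, b j < a → g (b j) = γ j (b j) := by
    by_cases hne : (Finset.univ.filter fun j => b j < a).Nonempty
    · obtain ⟨k, hk, hkmin⟩ := Finset.exists_min_image _ b hne
      simp only [Finset.mem_filter, Finset.mem_univ, true_and] at hk hkmin
      refine ⟨γ k, (hrad k).2.2.2.1, hγx k, ?_⟩
      intro j hj
      apply radSet_unique hδ hexp (hrad k) (hrad j) ((hγx k).trans (hγx j).symm)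
      · rw [uIcc_of_ge hk.le]
        exact ⟨hkmin j hj, hj.le⟩
      · exact right_mem_uIcc
    · refine ⟨fun _ => x, LipschitzWith.const' x, rfl, ?_⟩
      intro j hj
      exact absurd ⟨j, by simpa using hj⟩ hne
  obtain ⟨g, hgL, hga, hgb⟩ := hout
  obtain ⟨g', hgL', hga', hgb'⟩ := hin
  have hbr : ∀ j, b j ∈ Icc 0 r := fun j => (hrad j).2.1
  have e1 := sum_sq_le_of_lipschitz hgL har.2 (fun j => if a ≤ b j then b j else a)
    (fun j => by
      by_cases h : a ≤ b j
      · simp [h]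
      · simp [h])
    (fun j => by
      by_cases h : a ≤ b j
      · simp only [h, if_true]; exact (hbr j).2
      · simp only [h, if_false]; exact har.2)
  have e2 := sum_sq_le_of_lipschitz' hgL' har.1 (fun j => if a ≤ b j then a else b j)
    (fun j => by
      by_cases h : a ≤ b j
      · simp [h]
      · simp only [h, if_false]
        push Not at h
        exact h.le)
    (fun j => by
      by_cases h : a ≤ b j
      · simp only [h, if_true]; exact har.1
      · simp only [h, if_false]; exact (hbr j).1)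
  have e3 : ∀ j, (v j - x j) ^ 2 = (g (if a ≤ b j then b j else a) j - g a j) ^ 2 +
      (g' (if a ≤ b j then a else b j) j - g' a j) ^ 2 := by
    intro j
    by_cases h : a ≤ b j
    · simp only [h, if_true]
      rw [hgb j h, hga, hγb j]
      ring
    · simp only [h, if_false]
      rw [hgb' j (not_le.mp h), hga', hγb j]
      ring
  calc ∑ j, (v j - x j) ^ 2 = ∑ j, ((g (if a ≤ b j then b j else a) j - g a j) ^ 2 +
      (g' (if a ≤ b j then a else b j) j - g' a j) ^ 2) := Finset.sum_congr rfl fun j _ => e3 j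
    _ = ∑ j, (g (if a ≤ b j then b j else a) j - g a j) ^ 2 +
      ∑ j, (g' (if a ≤ b j then a else b j) j - g' a j) ^ 2 := Finset.sum_add_distrib
    _ ≤ (r - a) ^ 2 + (a - 0) ^ 2 := add_le_add e1 e2
    _ ≤ r ^ 2 := by nlinarith [har.1, har.2]

/-- A point with radial paths to two opposite faces. -/
theorem le_of_touch_touch {f : EuclideanSpace ℝ (Fin n) → EuclideanSpace ℝ (Fin n)}
    {Q : Set (EuclideanSpace ℝ (Fin n))} {δ : ℝ} (hδ : 0 < δ)
    (hexp : ∀ y ∈ Q, ∀ z ∈ Q, dist y z < δ → dist y z ≤ dist (f y) (f z))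
    {r : ℝ} {x : EuclideanSpace ℝ (Fin n)} (hx : f x ≠ 0) (j : Fin n) (s t : ℝ)
    (h1 : x ∈ touch f Q r {y | y j = s}) (h2 : x ∈ touch f Q r {y | y j = t}) :
    |s - t| ≤ r := by
  obtain ⟨a, b, u, γ, p1, p2, p3⟩ := mem_touch.mp h1
  obtain ⟨a', b', u', γ', p1', p2', p3'⟩ := mem_touch.mp h2
  have h4 := radSet_start p1 (by rw [p2]; exact hx)
  have h4' := radSet_start p1' (by rw [p2']; exact hx)
  rw [p2] at h4
  rw [p2'] at h4'
  obtain ⟨h5, h6⟩ := h4
  obtain ⟨h5', h6'⟩ := h4'
  have ha : a' = a := h5'.trans h5.symm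
  have hu : u' = u := h6'.trans h6.symm
  subst ha hu
  have h7 := radSet_dist hδ hexp p1 p1' (p2.trans p2'.symm)
  have h8 := abs_coord_le_dist (γ b) (γ' b') j
  simp only [Set.mem_ofPred_eq] at p3 p3'
  rw [p3, p3'] at h8
  have h9 : |b - b'| ≤ r := by
    have := p1.2.1
    have := p1'.2.1
    rw [abs_le]
    simp only [Set.mem_Icc] at *
    constructor <;> linarith
  linarith

end Pool.Agent.Expand
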