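import Mathlib
import Pool.Agent.Expand.Defs
import Pool.Agent.Expand.Cover

/-!
# The lower bound `min 2 √n` for the radius
-/

set_option autoImplicit false

open Filter Topology Set Metric

namespace Pool.Agent.Expand

variable {n : ℕ}

theorem exists_uniform {α β : Type*} [PseudoMetricSpace α] [PseudoMetricSpace β] {f : α → β}
    {X : Set α} (hX : IsCompact X) (h : IsExpandingOn f X) :
    ∃ δ > 0, ∀ y ∈ X, ∀ z ∈ X, dist y z < δ → dist y z ≤ dist (f y) (f z) := by
  have h1 : ∀ x : X, ∃ ε > 0, ∀ y ∈ ball x.1 ε ∩ X, ∀ z ∈ ball x.1 ε ∩ X,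
      dist y z ≤ dist (f y) (f z) := by
    rintro ⟨x, hx⟩
    obtain ⟨U, hU, hUe⟩ := h.2 x hx
    obtain ⟨ε, hε, hεU⟩ := Metric.mem_nhdsWithin_iff.mp hU
    exact ⟨ε, hε, fun y hy z hz => hUe y (hεU hy) z (hεU hz)⟩
  choose ε hε hεe using h1
  obtain ⟨δ, hδ, hδb⟩ := lebesgue_number_lemma_of_metric (c := fun x : X => ball x.1 (ε x)) hX
    (fun x => isOpen_ball) (fun x hx => Set.mem_iUnion.mpr ⟨⟨x, hx⟩, mem_ball_self (hε _)⟩)
  refine ⟨δ, hδ, ?_⟩
  intro y hy z hz hyz
  obtain ⟨x, hx⟩ := hδb y hy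
  exact hεe x y ⟨hx (mem_ball_self hδ), hy⟩ z ⟨hx (by rw [mem_ball, dist_comm]; exact hyz), hz⟩

theorem isCompact_cubeS (s : ℝ) :
    IsCompact {x : EuclideanSpace ℝ (Fin n) | ∀ i, |x i| ≤ s} := by
  apply Metric.isCompact_of_isClosed_isBounded
  · have : {x : EuclideanSpace ℝ (Fin n) | ∀ i, |x i| ≤ s} = ⋂ i, {x | |x i| ≤ s} := by
      ext x
      simp
    rw [this]
    apply isClosed_iInter
    intro i
    exact isClosed_le (by fun_prop) continuous_const
  · rw [isBounded_iff_forall_norm_le]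
    refine ⟨Real.sqrt (n * s ^ 2), ?_⟩
    intro x hx
    apply Real.le_sqrt_of_sq_le
    exact norm_sq_le_of_coord x s hx

theorem finite_zeros {f : EuclideanSpace ℝ (Fin n) → EuclideanSpace ℝ (Fin n)}
    {X : Set (EuclideanSpace ℝ (Fin n))} (hX : IsCompact X) (hf : ContinuousOn f X)
    {δ : ℝ} (hδ : 0 < δ)
    (hexp : ∀ y ∈ X, ∀ z ∈ X, dist y z < δ → dist y z ≤ dist (f y) (f z)) :
    (X ∩ f ⁻¹' {0}).Finite := by
  have h1 : IsCompact (X ∩ f ⁻¹' {0}) :=
    hX.of_isClosed_subset (hf.preimage_isClosed_of_isClosed hX.isClosed isClosed_singleton)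
      inter_subset_left
  obtain ⟨t, ht, htf, hcov⟩ := h1.finite_cover_balls hδ
  apply htf.subset
  intro z hz
  obtain ⟨x, hx, hzx⟩ := Set.mem_iUnion₂.mp (hcov hz)
  have h2 := hexp z hz.1 x (ht hx).1 hzx
  have h3 : f z = 0 := hz.2
  have h4 : f x = 0 := (ht hx).2
  rw [h3, h4, dist_self] at h2
  rw [dist_le_zero.mp h2]
  exact hx

theorem mem_touch_self {f : EuclideanSpace ℝ (Fin n) → EuclideanSpace ℝ (Fin n)}
    {Q : Set (EuclideanSpace ℝ (Fin n))} [Nonempty (Fin n)] {r : ℝ} (hr : ∀ x ∈ Q, ‖f x‖ ≤ r)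
    {x : EuclideanSpace ℝ (Fin n)} (hx : x ∈ Q) {F : Set (EuclideanSpace ℝ (Fin n))}
    (hF : x ∈ F) : ∃ u, ‖u‖ = 1 ∧ f x = ‖f x‖ • u ∧
      (‖f x‖, ‖f x‖, u, fun _ => x) ∈ radSet f Q r ∧ x ∈ touch f Q r F := by
  have hu : ∃ u : EuclideanSpace ℝ (Fin n), ‖u‖ = 1 ∧ f x = ‖f x‖ • u := by
    by_cases h0 : f x = 0
    · obtain ⟨u, hu⟩ := exists_norm_eq (EuclideanSpace ℝ (Fin n)) (zero_le_one (α := ℝ))
      exact ⟨u, hu, by rw [h0]; simp⟩
    · refine ⟨‖f x‖⁻¹ • f x, ?_, ?_⟩
      · rw [norm_smul, norm_inv, norm_norm]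
        exact inv_mul_cancel₀ (norm_ne_zero_iff.mpr h0)
      · rw [smul_smul, mul_inv_cancel₀ (norm_ne_zero_iff.mpr h0), one_smul]
  obtain ⟨u, hu1, hu2⟩ := hu
  have h1 : (‖f x‖, ‖f x‖, u, fun _ => x) ∈ radSet f Q r := by
    apply radSet_mk ⟨norm_nonneg _, hr x hx⟩ ⟨norm_nonneg _, hr x hx⟩ hu1
      (LipschitzWith.const' x) (fun _ => hx)
    intro t ht
    rw [uIcc_self, Set.mem_singleton_iff] at ht
    rw [ht]
    exact hu2
  exact ⟨u, hu1, hu2, h1, mem_touch.mpr ⟨_, _, _, _, h1, rfl, hF⟩⟩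

/-- The core of the argument, with a generic smaller cube. -/
theorem core {f : EuclideanSpace ℝ (Fin n) → EuclideanSpace ℝ (Fin n)} (hn : 0 < n)
    {s r δ : ℝ} (hs : 0 < s) (hδ : 0 < δ)
    (hf : ContinuousOn f {x | ∀ i, |x i| ≤ s})
    (hexp : ∀ y ∈ {x : EuclideanSpace ℝ (Fin n) | ∀ i, |x i| ≤ s},
      ∀ z ∈ {x : EuclideanSpace ℝ (Fin n) | ∀ i, |x i| ≤ s},
      dist y z < δ → dist y z ≤ dist (f y) (f z))
    (hr : ∀ x ∈ {x : EuclideanSpace ℝ (Fin n) | ∀ i, |x i| ≤ s}, ‖f x‖ ≤ r)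
    (hgen : ∀ x, f x = 0 → (∀ i, |x i| ≤ s) → ∀ i, |x i| < s)
    (h2 : r < 2 * s) (hsn : r < s * Real.sqrt n) : False := by
  classical
  have : Nonempty (Fin n) := ⟨⟨0, hn⟩⟩
  set Q : Set (EuclideanSpace ℝ (Fin n)) := {x | ∀ i, |x i| ≤ s} with hQ
  have hQc : IsCompact Q := isCompact_cubeS s
  have hfin := finite_zeros hQc hf hδ hexp
  set Z : Finset (EuclideanSpace ℝ (Fin n)) := hfin.toFinset with hZ
  have hZmem : ∀ x, x ∈ Z ↔ x ∈ Q ∧ f x = 0 := by
    intro x
    rw [hZ, Set.Finite.mem_toFinset]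
    rfl
  have hr0 : 0 ≤ r := by
    have h0 : (0 : EuclideanSpace ℝ (Fin n)) ∈ Q := by
      intro i
      simpa using hs.le
    exact (norm_nonneg _).trans (hr 0 h0)
  -- the radius of the small balls
  have hε : ∃ ε > 0, ε < δ / 2 ∧ r + ε < s * Real.sqrt n ∧ ∀ h ∈ Z, ∀ i, |h i| + ε < s := by
    have e1 : ∀ᶠ ε in 𝓝[>] (0 : ℝ), ε < δ / 2 :=
      mem_nhdsWithin_of_mem_nhds (Iio_mem_nhds (by linarith))
    have e2 : ∀ᶠ ε in 𝓝[>] (0 : ℝ), r + ε < s * Real.sqrt n := by
      have : ∀ᶠ ε in 𝓝[>] (0 : ℝ), ε < s * Real.sqrt n - r :=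
        mem_nhdsWithin_of_mem_nhds (Iio_mem_nhds (by linarith))
      filter_upwards [this] with ε hε
      linarith
    have e3 : ∀ᶠ ε in 𝓝[>] (0 : ℝ), ∀ h ∈ Z, ∀ i, |h i| + ε < s := by
      rw [Filter.eventually_all_finset]
      intro h hh
      rw [Filter.eventually_all]
      intro i
      have h3 := hgen h ((hZmem h).mp hh).2 ((hZmem h).mp hh).1 i
      have : ∀ᶠ ε in 𝓝[>] (0 : ℝ), ε < s - |h i| :=
        mem_nhdsWithin_of_mem_nhds (Iio_mem_nhds (by linarith))
      filter_upwards [this] with ε hε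
      linarith
    have e4 : ∀ᶠ ε in 𝓝[>] (0 : ℝ), 0 < ε := self_mem_nhdsWithin
    obtain ⟨ε, h1, h2, h3, h4⟩ := (e1.and (e2.and (e3.and e4))).exists
    exact ⟨ε, h4, h1, h2, h3⟩
  obtain ⟨ε, hε0, hεδ, hεr, hεZ⟩ := hε
  -- touching sets
  set Bp : Fin n → Set (EuclideanSpace ℝ (Fin n)) := fun j => touch f Q r {y | y j = s} with hBp
  set Bm : Fin n → Set (EuclideanSpace ℝ (Fin n)) := fun j => touch f Q r {y | y j = -s} with hBm
  have hclp : ∀ j, IsClosed {y : EuclideanSpace ℝ (Fin n) | y j = s} := fun j =>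
    isClosed_eq (by fun_prop) continuous_const
  have hclm : ∀ j, IsClosed {y : EuclideanSpace ℝ (Fin n) | y j = -s} := fun j =>
    isClosed_eq (by fun_prop) continuous_const
  have hBpc : ∀ j, IsClosed (Bp j) := fun j => (isCompact_touch hQc hf r (hclp j)).isClosed
  have hBmc : ∀ j, IsClosed (Bm j) := fun j => (isCompact_touch hQc hf r (hclm j)).isClosed
  have hface : ∀ x ∈ Q, ∀ F : Set (EuclideanSpace ℝ (Fin n)), x ∈ F → x ∈ touch f Q r F := by
    intro x hx F hF
    obtain ⟨u, -, -, -, h⟩ := mem_touch_self hr hx hF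
    exact h
  have hBpn : ∀ j, (Bp j).Nonempty := by
    intro j
    refine ⟨WithLp.toLp 2 (fun _ => s), hface _ ?_ _ rfl⟩
    intro i
    simp only
    rw [abs_of_pos hs]
  have hBmn : ∀ j, (Bm j).Nonempty := by
    intro j
    refine ⟨WithLp.toLp 2 (fun _ => -s), hface _ ?_ _ rfl⟩
    intro i
    simp only
    rw [abs_neg, abs_of_pos hs]
  have hdisj : ∀ x, f x ≠ 0 → ∀ j, ¬ (x ∈ Bp j ∧ x ∈ Bm j) := by
    rintro x hx j ⟨h3, h4⟩
    have h5 := le_of_touch_touch hδ hexp hx j s (-s) h3 h4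
    rw [abs_of_nonneg (by linarith)] at h5
    linarith
  have hcover : ∀ x ∈ Q, ∃ j, x ∈ Bp j ∨ x ∈ Bm j := by
    intro x hx
    obtain ⟨u, hu1, hu2, -, -⟩ := mem_touch_self (F := Set.univ) hr hx (Set.mem_univ x)
    obtain ⟨b, γ, hab, hp, hγa, hγb⟩ := exists_radSet_frontier hQc hf hδ hexp hr hx
      (norm_nonneg _) hu1 hu2
    by_contra hcon
    push Not at hcon
    apply hγb
    rw [mem_interior]
    refine ⟨{y : EuclideanSpace ℝ (Fin n) | ∀ i, |y i| < s}, fun y hy i => (hy i).le, ?_, ?_⟩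
    · have : {y : EuclideanSpace ℝ (Fin n) | ∀ i, |y i| < s} = ⋂ i, {y | |y i| < s} := by
        ext y
        simp
      rw [this]
      apply isOpen_iInter_of_finite
      intro i
      exact isOpen_lt (by fun_prop) continuous_const
    · intro i
      have h3 : |γ b i| ≤ s := hp.2.2.2.2.1 b i
      apply lt_of_le_of_ne h3
      intro h4
      rcases abs_choice (γ b i) with h5 | h5
      · apply (hcon i).1
        exact mem_touch.mpr ⟨_, _, _, _, hp, hγa, by
          simp only [Set.mem_ofPred_eq]; rw [← h5]; exact h4⟩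
      · apply (hcon i).2
        exact mem_touch.mpr ⟨_, _, _, _, hp, hγa, by
          simp only [Set.mem_ofPred_eq]; rw [← h4, h5]; ring⟩
  -- the functions φ
  set φ : Fin n → EuclideanSpace ℝ (Fin n) → ℝ := fun j x =>
    (infDist x (Bm j) - infDist x (Bp j)) / (infDist x (Bm j) + infDist x (Bp j)) with hφ
  have hden : ∀ x, f x ≠ 0 → ∀ j, 0 < infDist x (Bm j) + infDist x (Bp j) := by
    intro x hx j
    have h3 : 0 ≤ infDist x (Bm j) := infDist_nonneg
    have h4 : 0 ≤ infDist x (Bp j) := infDist_nonneg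
    by_contra h5
    push Not at h5
    have h6 : infDist x (Bm j) = 0 := by linarith
    have h7 : infDist x (Bp j) = 0 := by linarith
    exact hdisj x hx j ⟨((hBpc j).mem_iff_infDist_zero (hBpn j)).mpr h7,
      ((hBmc j).mem_iff_infDist_zero (hBmn j)).mpr h6⟩
  have hφle : ∀ x j, |φ j x| ≤ 1 := by
    intro x j
    have h3 : 0 ≤ infDist x (Bm j) := infDist_nonneg
    have h4 : 0 ≤ infDist x (Bp j) := infDist_nonneg
    simp only [hφ]
    rw [abs_div]
    apply div_le_one_of_le₀ _ (abs_nonneg _)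
    rw [abs_of_nonneg (by linarith : 0 ≤ infDist x (Bm j) + infDist x (Bp j)), abs_le]
    constructor <;> linarith
  have hφp : ∀ x, f x ≠ 0 → ∀ j, (x ∈ Bp j ↔ φ j x = 1) := by
    intro x hx j
    have h3 := hden x hx j
    rw [(hBpc j).mem_iff_infDist_zero (hBpn j)]
    simp only [hφ]
    rw [div_eq_one_iff_eq h3.ne']
    constructor <;> intro h <;> linarith
  have hφm : ∀ x, f x ≠ 0 → ∀ j, (x ∈ Bm j ↔ φ j x = -1) := by
    intro x hx j
    have h3 := hden x hx j
    rw [(hBmc j).mem_iff_infDist_zero (hBmn j)]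
    simp only [hφ]
    rw [div_eq_iff h3.ne']
    constructor <;> intro h <;> linarith
  have hφc : ∀ x, f x ≠ 0 → ∀ j, ContinuousAt (φ j) x := by
    intro x hx j
    simp only [hφ]
    apply ContinuousAt.div
    · exact ((continuous_infDist_pt _).sub (continuous_infDist_pt _)).continuousAt
    · exact ((continuous_infDist_pt _).add (continuous_infDist_pt _)).continuousAt
    · exact (hden x hx j).ne'
  -- cut-off functions
  set τ : EuclideanSpace ℝ (Fin n) → EuclideanSpace ℝ (Fin n) → ℝ := fun h x =>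
    min 1 (dist x h / ε) with hτ
  have hτc : ∀ h, Continuous (τ h) := by
    intro h
    simp only [hτ]
    fun_prop
  have hτ0 : ∀ h x, 0 ≤ τ h x := fun h x => le_min zero_le_one (div_nonneg dist_nonneg hε0.le)
  have hτ1 : ∀ h x, ε ≤ dist x h → τ h x = 1 := by
    intro h x hx
    simp only [hτ]
    apply min_eq_left
    rwa [one_le_div hε0]
  have hτ2 : ∀ h x, dist x h < ε → τ h x = dist x h / ε := by
    intro h x hx
    simp only [hτ]
    apply min_eq_right
    rw [div_le_one hε0]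
    exact hx.le
  set P : EuclideanSpace ℝ (Fin n) → ℝ := fun x => ∏ h ∈ Z, τ h x with hP
  have hPc : Continuous P := continuous_finsetProd _ fun h _ => hτc h
  have hP0 : ∀ x, 0 ≤ P x := fun x => Finset.prod_nonneg fun h _ => hτ0 h x
  set c : EuclideanSpace ℝ (Fin n) → Fin n → ℝ := fun h j => if 0 ≤ h j then -1 else 1 with hc
  have hc1 : ∀ h j, c h j = 1 ∨ c h j = -1 := by
    intro h j
    simp only [hc]
    by_cases h3 : 0 ≤ h j
    · right; rw [if_pos h3]
    · left; rw [if_neg h3]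
  set w : EuclideanSpace ℝ (Fin n) → Fin n → ℝ := fun x j =>
    P x * φ j x - ∑ h ∈ Z, (1 - τ h x) * c h j with hw
  have hwc : ContinuousOn w Q := by
    apply continuousOn_pi.mpr
    intro j
    simp only [hw]
    apply ContinuousOn.sub
    · intro x hx
      by_cases h0 : f x = 0
      · have hxZ : x ∈ Z := (hZmem x).mpr ⟨hx, h0⟩
        have hPx : P x = 0 := by
          apply Finset.prod_eq_zero hxZ
          rw [hτ2 x x (by rw [dist_self]; exact hε0), dist_self, zero_div]
        have h3 : Tendsto P (𝓝 x) (𝓝 0) := by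
          rw [← hPx]
          exact hPc.continuousAt
        have h4 : Tendsto (fun y => P y * φ j y) (𝓝 x) (𝓝 0) := by
          apply squeeze_zero_norm _ h3
          intro y
          rw [norm_mul, Real.norm_eq_abs, Real.norm_eq_abs, abs_of_nonneg (hP0 y)]
          calc P y * |φ j y| ≤ P y * 1 := mul_le_mul_of_nonneg_left (hφle y j) (hP0 y)
            _ = P y := mul_one _
        have h5 : ContinuousAt (fun y => P y * φ j y) x := by
          have h6 : P x * φ j x = 0 := by rw [hPx, zero_mul]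
          show Tendsto (fun y => P y * φ j y) (𝓝 x) (𝓝 (P x * φ j x))
          rw [h6]
          exact h4
        exact h5.continuousWithinAt
      · exact ((hPc.continuousAt).mul (hφc x h0 j)).continuousWithinAt
    · apply Continuous.continuousOn
      apply continuous_finsetSum
      intro h _
      exact (continuous_const.sub (hτc h)).mul continuous_const
  -- w away from the small balls
  have hwfar : ∀ x, (∀ h ∈ Z, ε ≤ dist x h) → ∀ j, w x j = φ j x := by
    intro x hx j
    simp only [hw, hP]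
    rw [Finset.prod_eq_one (fun h hh => hτ1 h x (hx h hh)),
      Finset.sum_eq_zero (fun h hh => by rw [hτ1 h x (hx h hh)]; ring)]
    ring
  have hZsep : ∀ h ∈ Z, ∀ h' ∈ Z, dist h h' < δ → h = h' := by
    intro h hh h' hh' hd
    have h3 := hexp h ((hZmem h).mp hh).1 h' ((hZmem h').mp hh').1 hd
    rw [((hZmem h).mp hh).2, ((hZmem h').mp hh').2, dist_self] at h3
    exact dist_le_zero.mp h3
  have hwnear : ∀ x, ∀ h ∈ Z, dist x h < ε → ∀ j,
      w x j = (dist x h / ε) * φ j x - (1 - dist x h / ε) * c h j := by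
    intro x h hh hxh j
    have h3 : ∀ h' ∈ Z, h' ≠ h → τ h' x = 1 := by
      intro h' hh' hne
      apply hτ1
      by_contra h4
      push Not at h4
      apply hne
      apply hZsep h' hh' h hh
      have := dist_triangle_left h' h x
      linarith
    simp only [hw, hP]
    rw [Finset.prod_eq_single_of_mem h hh h3, Finset.sum_eq_single_of_mem h hh
      (fun h' hh' hne => by rw [h3 h' hh' hne]; ring), hτ2 h x hxh]
  have hbdry : ∀ x ∈ Q, ∀ i, |x i| = s → ∀ h ∈ Z, ε ≤ dist x h := by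
    intro x hx i hxi h hh
    have h3 := hεZ h hh i
    have h4 := abs_coord_le_dist x h i
    have h5 := abs_sub_abs_le_abs_sub (x i) (h i)
    rw [hxi] at h5
    linarith
  have hfne : ∀ x ∈ Q, (∀ h ∈ Z, x ≠ h) → f x ≠ 0 := by
    intro x hx h3 h4
    exact h3 x ((hZmem x).mpr ⟨hx, h4⟩) rfl
  obtain ⟨x, hxQ, hx0⟩ := poincare_miranda 0 s hs w
    (by simpa using hwc)
    (by
      intro x hx i hxi
      simp only [PiLp.zero_apply, sub_zero, zero_sub] at hx hxi
      have hxQ : x ∈ Q := hx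
      have h3 := hbdry x hxQ i (by rw [hxi, abs_neg, abs_of_pos hs])
      have h4 : f x ≠ 0 := hfne x hxQ (fun h hh h5 => by
        have := h3 h hh
        rw [h5, dist_self] at this
        linarith)
      rw [hwfar x h3 i, (hφm x h4 i).mp (hface x hxQ _ hxi)]
      norm_num)
    (by
      intro x hx i hxi
      simp only [PiLp.zero_apply, sub_zero, zero_add] at hx hxi
      have hxQ : x ∈ Q := hx
      have h3 := hbdry x hxQ i (by rw [hxi, abs_of_pos hs])
      have h4 : f x ≠ 0 := hfne x hxQ (fun h hh h5 => by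
        have := h3 h hh
        rw [h5, dist_self] at this
        linarith)
      rw [hwfar x h3 i, (hφp x h4 i).mp (hface x hxQ _ hxi)]
      norm_num)
  have hxQ' : x ∈ Q := by simpa [hQ] using hxQ
  by_cases hfar : ∀ h ∈ Z, ε ≤ dist x h
  · have h4 : f x ≠ 0 := hfne x hxQ' (fun h hh h5 => by
      have := hfar h hh
      rw [h5, dist_self] at this
      linarith)
    obtain ⟨j, hj⟩ := hcover x hxQ'
    have h5 := congrFun hx0 j
    rw [hwfar x hfar j, Pi.zero_apply] at h5
    rcases hj with hj | hj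
    · rw [(hφp x h4 j).mp hj] at h5
      norm_num at h5
    · rw [(hφm x h4 j).mp hj] at h5
      norm_num at h5
  · push Not at hfar
    obtain ⟨h, hh, hxh⟩ := hfar
    set t : ℝ := dist x h / ε with ht
    have ht0 : 0 ≤ t := div_nonneg dist_nonneg hε0.le
    have ht1 : t < 1 := by rw [ht, div_lt_one hε0]; exact hxh
    have hw0 : ∀ j, t * φ j x = (1 - t) * c h j := by
      intro j
      have h5 := congrFun hx0 j
      rw [hwnear x h hh hxh j, Pi.zero_apply] at h5
      linarith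
    have hZh := (hZmem h).mp hh
    have hxne : x ≠ h := by
      intro h3
      have h4 : t = 0 := by rw [ht, h3, dist_self, zero_div]
      have h5 := hw0 (Classical.arbitrary _)
      rw [h4] at h5
      rcases hc1 h (Classical.arbitrary _) with h6 | h6
      · rw [h6] at h5
        norm_num at h5
      · rw [h6] at h5
        norm_num at h5
    have hfx : f x ≠ 0 := by
      intro h3
      have h4 := hexp x hxQ' h hZh.1 (by linarith)
      rw [h3, hZh.2, dist_self] at h4
      exact hxne (dist_le_zero.mp h4)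
    have ht2 : t = 1 - t := by
      obtain ⟨j, hj⟩ := hcover x hxQ'
      have h5 := hw0 j
      have h6 : φ j x = 1 ∨ φ j x = -1 := by
        rcases hj with hj | hj
        · left; exact (hφp x hfx j).mp hj
        · right; exact (hφm x hfx j).mp hj
      rcases h6 with h6 | h6 <;> rcases hc1 h j with h7 | h7 <;> rw [h6, h7] at h5 <;> linarith
    have hφeq : ∀ j, φ j x = c h j := by
      intro j
      have h5 := hw0 j
      have h6 : t = 1 / 2 := by linarith
      rw [h6] at h5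
      linarith
    have htouch : ∀ j, x ∈ touch f Q r {y | y j = c h j * s} := by
      intro j
      rcases hc1 h j with h7 | h7
      · rw [h7, one_mul]
        exact (hφp x hfx j).mpr ((hφeq j).trans h7)
      · rw [h7, neg_one_mul]
        exact (hφm x hfx j).mpr ((hφeq j).trans h7)
    have hsum := sum_sq_le_of_touch hδ hexp hfx (fun j => c h j * s) htouch
    set v : EuclideanSpace ℝ (Fin n) := WithLp.toLp 2 (fun j => c h j * s) with hv
    have hvx : ‖v - x‖ ≤ r := by
      apply abs_le_of_sq_le_sq' _ hr0 |>.2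
      rw [EuclideanSpace.norm_sq_eq]
      refine le_trans (le_of_eq ?_) hsum
      apply Finset.sum_congr rfl
      intro j _
      rw [Real.norm_eq_abs, sq_abs]
      rfl
    have hvh : s * Real.sqrt n ≤ ‖v - h‖ := by
      have h5 : ∀ j, s ≤ |(v - h) j| := by
        intro j
        have h6 : (v - h) j = c h j * s - h j := rfl
        rw [h6]
        simp only [hc]
        by_cases h7 : 0 ≤ h j
        · rw [if_pos h7, abs_of_nonpos (by linarith)]
          linarith
        · rw [if_neg h7]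
          push Not at h7
          rw [abs_of_nonneg (by linarith)]
          linarith
      have h6 := le_norm_sq_of_coord (v - h) s hs.le h5
      apply abs_le_of_sq_le_sq' _ (norm_nonneg _) |>.2
      rw [mul_pow, Real.sq_sqrt (Nat.cast_nonneg n)]
      linarith
    have h8 : ‖v - h‖ ≤ ‖v - x‖ + dist x h := by
      rw [dist_eq_norm]
      calc ‖v - h‖ = ‖(v - x) + (x - h)‖ := by congr 1; abel
        _ ≤ ‖v - x‖ + ‖x - h‖ := norm_add_le _ _
    linarith

/-- Every expanding map from `[-1,1]^n` into a closed ball of radius `r` has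
`min 2 √n ≤ r`. -/
theorem min_two_sqrt_le (f : EuclideanSpace ℝ (Fin n) → EuclideanSpace ℝ (Fin n))
    (hf : IsExpandingOn f (cube n)) (p : EuclideanSpace ℝ (Fin n)) (r : ℝ)
    (h : Set.MapsTo f (cube n) (closedBall p r)) : min 2 (Real.sqrt n) ≤ r := by
  have h0 : (0 : EuclideanSpace ℝ (Fin n)) ∈ cube n := by
    intro i
    simp
  have hr0 : 0 ≤ r := dist_nonneg.trans (h h0)
  rcases Nat.eq_zero_or_pos n with hn | hn
  · subst hn
    simp [hr0]
  by_contra hcon
  push Not at hcon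
  have hr2 : r < 2 := lt_of_lt_of_le hcon (min_le_left _ _)
  have hrn : r < Real.sqrt n := lt_of_lt_of_le hcon (min_le_right _ _)
  have hsn : 0 < Real.sqrt n := Real.sqrt_pos.mpr (by exact_mod_cast hn)
  have hcube : cube n = {x : EuclideanSpace ℝ (Fin n) | ∀ i, |x i| ≤ 1} := rfl
  have hXc : IsCompact (cube n) := isCompact_cubeS 1
  obtain ⟨δ, hδ, hexp⟩ := exists_uniform hXc hf
  set g : EuclideanSpace ℝ (Fin n) → EuclideanSpace ℝ (Fin n) := fun x => f x - p with hg
  have hgc : ContinuousOn g (cube n) := hf.1.sub continuousOn_const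
  have hgexp : ∀ y ∈ cube n, ∀ z ∈ cube n, dist y z < δ → dist y z ≤ dist (g y) (g z) := by
    intro y hy z hz hyz
    simp only [hg]
    rw [dist_sub_right]
    exact hexp y hy z hz hyz
  have hgr : ∀ x ∈ cube n, ‖g x‖ ≤ r := by
    intro x hx
    have := h hx
    rw [mem_closedBall, dist_eq_norm] at this
    exact this
  have hfin := finite_zeros hXc hgc hδ hgexp
  set m : ℝ := max 0 (max (r / 2) (r / Real.sqrt n)) with hm
  have hm1 : m < 1 := by
    apply max_lt zero_lt_one
    apply max_lt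
    · linarith
    · rwa [div_lt_one hsn]
  have hbad : (⋃ i : Fin n, (fun x : EuclideanSpace ℝ (Fin n) => |x i|) ''
      (cube n ∩ g ⁻¹' {0})).Finite := Set.finite_iUnion fun i => hfin.image _
  obtain ⟨s, ⟨hsm, hs1⟩, hsbad⟩ := ((Set.Ioo_infinite hm1).sdiff hbad).nonempty
  have hs0 : 0 < s := lt_of_le_of_lt (le_max_left _ _) hsm
  have hs2 : r / 2 < s := lt_of_le_of_lt ((le_max_left _ _).trans (le_max_right _ _)) hsm
  have hs3 : r / Real.sqrt n < s :=
    lt_of_le_of_lt ((le_max_right _ _).trans (le_max_right _ _)) hsm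
  have hsub : {x : EuclideanSpace ℝ (Fin n) | ∀ i, |x i| ≤ s} ⊆ cube n :=
    fun x hx i => (hx i).trans hs1.le
  apply core (f := g) hn hs0 hδ (hgc.mono hsub)
    (fun y hy z hz => hgexp y (hsub hy) z (hsub hz)) (fun x hx => hgr x (hsub hx))
    _ (by linarith) (by rwa [div_lt_iff₀ hsn] at hs3)
  intro x hx hxQ i
  apply lt_of_le_of_ne (hxQ i)
  intro h3
  apply hsbad
  exact Set.mem_iUnion.mpr ⟨i, x, ⟨hsub hxQ, hx⟩, h3⟩

end Pool.Agent.Expand
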